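import Pool.Agent.H97R2.LPB.Props

/-!
Certificate on `[3.87, 12]`: `Phi + 2 Ux` is decreasing there, and one evaluation at `3.87`.
-/

open Polynomial Filter Topology MeasureTheory Pool.Agent.H337R2 Pool.Agent.LP

namespace Pool.Agent.LPB

namespace H305

theorem hasDerivAt_Psi {u : ℝ} (hu : 0 < u) : HasDerivAt Psi (Real.log u) u := by
  have h1 : HasDerivAt (fun u : ℝ => u * Real.log u - u) (1 * Real.log u + u * u⁻¹ - 1) u :=
    ((hasDerivAt_id u).mul (Real.hasDerivAt_log hu.ne')).sub (hasDerivAt_id u)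
  have h2 : (1 * Real.log u + u * u⁻¹ - 1) = Real.log u := by
    rw [mul_inv_cancel₀ hu.ne']; ring
  rw [h2] at h1
  exact h1

theorem hasDerivAt_Psi_add (c : ℝ) {v : ℝ} (hu : 0 < v + c) :
    HasDerivAt (fun t => Psi (t + c)) (Real.log (v + c)) v := by
  have h1 := (hasDerivAt_Psi hu)
  have h2 : HasDerivAt (fun t : ℝ => t + c) 1 v := (hasDerivAt_id v).add_const c
  have h3 := h1.comp v h2
  rw [mul_one] at h3
  exact h3

theorem hasDerivAt_Psi_sub (c : ℝ) {v : ℝ} (hu : 0 < v - c) :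
    HasDerivAt (fun t => Psi (t - c)) (Real.log (v - c)) v := by
  have h1 := (hasDerivAt_Psi hu)
  have h2 : HasDerivAt (fun t : ℝ => t - c) 1 v := (hasDerivAt_id v).sub_const c
  have h3 := h1.comp v h2
  rw [mul_one] at h3
  exact h3

/-- derivative of `Ux` to the right of `3` -/
theorem hasDerivAt_Ux {v : ℝ} (hv : 3 < v) : HasDerivAt Ux
    (16 / 15 * (Real.log (v + 15 / 16) - Real.log (v - 15 / 16)) +
    16 / 33 * (Real.log (v - 15 / 16) - Real.log (v - 3) + Real.log (v + 3) -
      Real.log (v + 15 / 16))) v := by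
  have a1 := hasDerivAt_Psi_add (15 / 16) (v := v) (by linarith)
  have a2 := hasDerivAt_Psi_sub (15 / 16) (v := v) (by linarith)
  have a3 := hasDerivAt_Psi_sub 3 (v := v) (by linarith)
  have a4 := hasDerivAt_Psi_add 3 (v := v) (by linarith)
  exact ((a1.sub a2).const_mul (16 / 15)).add ((((a2.sub a3).add a4).sub a1).const_mul (16 / 33))

/-- `q log y ≤ p log 2` from `y^q ≤ 2^p` -/
theorem log_le {y : ℝ} (hy : 0 < y) (p q : ℕ) (h : y ^ q ≤ 2 ^ p) :
    q * Real.log y ≤ p * Real.log 2 := by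
  have := Real.log_le_log (by positivity) h
  rwa [Real.log_pow, Real.log_pow] at this

theorem log_ge {y : ℝ} (p q : ℕ) (h : 2 ^ p ≤ y ^ q) :
    p * Real.log 2 ≤ q * Real.log y := by
  have := Real.log_le_log (by positivity) h
  rwa [Real.log_pow, Real.log_pow] at this

theorem log_diff {v e : ℝ} (c : ℝ) (he : 0 ≤ e) (hc : e < c) (hv : c ≤ v) :
    Real.log (v + e) - Real.log (v - e) ≤ Real.log ((c + e) / (c - e)) := by
  rw [← Real.log_div (by linarith) (by linarith)]
  apply Real.log_le_log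
  · apply div_pos <;> linarith
  · rw [div_le_div_iff₀ (by linarith) (by linarith)]
    nlinarith

theorem arctan_le {x : ℝ} (hx : 0 ≤ x) : Real.arctan x ≤ x := by
  have h := Real.le_tan (Real.arctan_nonneg.2 hx) (Real.arctan_lt_pi_div_two x)
  rwa [Real.tan_arctan] at h

theorem deriv_neg (v : ℝ) (hv : 387 / 100 ≤ v) :
    (2 * Real.arctan (1 / v) - Real.arctan (5 / v) - Real.pi) +
    2 * (16 / 15 * (Real.log (v + 15 / 16) - Real.log (v - 15 / 16)) +
    16 / 33 * (Real.log (v - 15 / 16) - Real.log (v - 3) + Real.log (v + 3) -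
      Real.log (v + 15 / 16))) ≤ 0 := by
  have hv0 : 0 < v := by linarith
  have h1 : Real.arctan (1 / v) ≤ 1 / v := arctan_le (by positivity)
  have h1' : 1 / v ≤ 100 / 387 := by
    rw [div_le_div_iff₀ hv0 (by norm_num)]
    linarith
  have h2 : 0 ≤ Real.arctan (5 / v) := Real.arctan_nonneg.2 (by positivity)
  have h3 := log_diff (v := v) (e := 15 / 16) (387 / 100) (by norm_num) (by norm_num) hv
  have h4 := log_diff (v := v) (e := 3) (387 / 100) (by norm_num) (by norm_num) hv
  have h5 := log_le (y := (387 / 100 + 15 / 16) / (387 / 100 - 15 / 16)) (by norm_num) 5 7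
    (by norm_num)
  have h6 := log_le (y := ((387 / 100 + 3) / (387 / 100 - 3) : ℝ)) (by norm_num) 3 1
    (by norm_num)
  have h7 := Real.log_two_lt_d9
  have h8 := Real.pi_gt_d2
  push_cast at h5 h6
  linarith

/-- `arctan (5 / 3.87) ≥ π/4 + 0.12` -/
theorem arctan_val : Real.pi / 4 + 12 / 100 ≤ Real.arctan (5 / (387 / 100)) := by
  have h1 : Real.tan (12 / 100) ≤ 113 / 887 := by
    have hc := Real.one_sub_sq_div_two_le_cos (x := 12 / 100)
    have hs := Real.sin_le (x := 12 / 100) (by norm_num)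
    have hc' : (0 : ℝ) < Real.cos (12 / 100) := by linarith
    rw [Real.tan_eq_sin_div_cos, div_le_div_iff₀ hc' (by norm_num)]
    nlinarith
  have h2 : (12 / 100 : ℝ) ≤ Real.arctan (113 / 887) := by
    have h3 := Real.arctan_mono h1
    rwa [Real.arctan_tan (by linarith [Real.pi_pos]) (by linarith [Real.pi_gt_three])] at h3
  have h4 := Real.arctan_add (x := 1) (y := 113 / 887) (by norm_num)
  rw [Real.arctan_one] at h4
  have h5 : ((1 : ℝ) + 113 / 887) / (1 - 1 * (113 / 887)) = 5 / (387 / 100) := by norm_num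
  rw [h5] at h4
  linarith

/-- the value at `3.87` -/
theorem val : (2 * Pc 1 (387 / 100) - Pc 5 (387 / 100) - Real.pi * (387 / 100)) +
    2 * Ux (387 / 100) ≤ -(665 / 100) := by
  have a1 : Real.arctan (1 / (387 / 100)) ≤ 1 / (387 / 100) := arctan_le (by norm_num)
  have a2 := arctan_val
  have l0 := log_le (y := (1 : ℝ) ^ 2 + (387 / 100) ^ 2) (by norm_num) 4 1 (by norm_num)
  have l5 := log_ge (y := (5 : ℝ) ^ 2 + (387 / 100) ^ 2) 53 10 (by norm_num)
  have l1 := log_le (y := (387 / 100 + 15 / 16 : ℝ)) (by norm_num) 34 15 (by norm_num)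
  have l3 := log_le (y := (387 / 100 + 3 : ℝ)) (by norm_num) 39 14 (by norm_num)
  have l2 := log_ge (y := (387 / 100 - 15 / 16 : ℝ)) 17 11 (by norm_num)
  have l4 := log_le (y := ((387 / 100 - 3)⁻¹ : ℝ)) (by norm_num) 2 9 (by norm_num)
  rw [Real.log_inv] at l4
  have h7 := Real.log_two_lt_d9
  have h7' := Real.log_two_gt_d9
  have h8 := Real.pi_gt_d2
  unfold Ux Pc Psi
  push_cast at l0 l1 l2 l3 l4 l5
  nlinarith

end H305

open H305 in
theorem V1_cert3 (h : S_shape) : S_cert3 := by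
  intro v hv1 hv2
  have hanti : AntitoneOn (fun t : ℝ => (2 * Pc 1 t - Pc 5 t - Real.pi * t) + 2 * Ux t)
      (Set.Ici (387 / 100)) := by
    have hd : ∀ t : ℝ, 387 / 100 ≤ t →
        HasDerivAt (fun t : ℝ => (2 * Pc 1 t - Pc 5 t - Real.pi * t) + 2 * Ux t)
        ((2 * Real.arctan (1 / t) - Real.arctan (5 / t) - Real.pi) +
    2 * (16 / 15 * (Real.log (t + 15 / 16) - Real.log (t - 15 / 16)) +
    16 / 33 * (Real.log (t - 15 / 16) - Real.log (t - 3) + Real.log (t + 3) -
      Real.log (t + 15 / 16)))) t := fun t ht =>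
      (h.1 t (by linarith)).add ((hasDerivAt_Ux (v := t) (by linarith)).const_mul 2)
    apply antitoneOn_of_deriv_nonpos (convex_Ici _)
    · exact fun t ht => (hd t ht).continuousAt.continuousWithinAt
    · intro t ht
      rw [interior_Ici] at ht
      exact (hd t (le_of_lt ht)).differentiableAt.differentiableWithinAt
    · intro t ht
      rw [interior_Ici] at ht
      rw [(hd t (le_of_lt ht)).deriv]
      exact deriv_neg t (le_of_lt ht)
  have h1 := hanti (Set.mem_Ici.2 le_rfl) (Set.mem_Ici.2 hv1) hv1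
  have h2 := val
  have h3 : Phi v + 2 * Ux v = (2 * Pc 1 v - Pc 5 v - Real.pi * v) + 2 * Ux v := by
    unfold Phi
    rw [abs_of_nonneg (by linarith)]
  rw [h3]
  exact le_trans h1 h2

end Pool.Agent.LPB
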